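import Pool.Agent.W544.PG.Defs6
import Pool.Agent.W557.PG.Ahl

/-!
Project PG (owner helper544), part PG5-XST: the Lie algebra of the rational forms killed by the
Hodge operator is stable under the Cartan involution.
-/

set_option autoImplicit false

open Matrix Finset

namespace Pool.Agent.W612.PG

open Pool.Agent.W544.PG Pool.Agent.W557.PG

section pf
variable {ι : Type} [Fintype ι] [DecidableEq ι] {k : ℕ}

/-- a matrix in each variable -/
def pullF (A : Fin k → Matrix ι ι ℂ) (s : (Fin k → ι) → ℂ) : (Fin k → ι) → ℂ :=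
  fun J => ∑ K : Fin k → ι, (∏ j, A j (K j) (J j)) * s K

omit [DecidableEq ι] in
theorem pull_eq (A : Matrix ι ι ℂ) (s : (Fin k → ι) → ℂ) : pull A s = pullF (fun _ => A) s := rfl

omit [DecidableEq ι] in
theorem pullF_mul (A B : Fin k → Matrix ι ι ℂ) (s : (Fin k → ι) → ℂ) :
    pullF A (pullF B s) = pullF (fun j => B j * A j) s := by
  funext J
  unfold pullF
  have h1 : ∀ L : Fin k → ι, ∏ j, (B j * A j) (L j) (J j) =
      ∑ K : Fin k → ι, (∏ j, A j (K j) (J j)) * ∏ j, B j (L j) (K j) := by
    intro L
    have h2 : ∀ j, (B j * A j) (L j) (J j) = ∑ m, A j m (J j) * B j (L j) m := by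
      intro j
      rw [Matrix.mul_apply]
      exact Finset.sum_congr rfl fun m _ => mul_comm _ _
    simp only [h2]
    rw [Finset.prod_univ_sum]
    simp only [Fintype.piFinset_univ, Finset.prod_mul_distrib]
  simp only [h1, Finset.sum_mul, Finset.mul_sum]
  rw [Finset.sum_comm]
  refine Finset.sum_congr rfl fun K _ => Finset.sum_congr rfl fun L _ => ?_
  ring

omit [DecidableEq ι] in
theorem pullF_sum {I : Type} [Fintype I] (F : Fin k → I → Matrix ι ι ℂ)
    (s : (Fin k → ι) → ℂ) :
    pullF (fun j => ∑ i, F j i) s = ∑ e : Fin k → I, pullF (fun j => F j (e j)) s := by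
  funext J
  simp only [pullF, Matrix.sum_apply, Finset.sum_apply]
  rw [Finset.sum_comm]
  refine Finset.sum_congr rfl fun K _ => ?_
  rw [Finset.prod_univ_sum, Fintype.piFinset_univ, Finset.sum_mul]

omit [DecidableEq ι] in
theorem pullF_smul (c : Fin k → ℂ) (A : Fin k → Matrix ι ι ℂ) (s : (Fin k → ι) → ℂ) :
    pullF (fun j => c j • A j) s = (∏ j, c j) • pullF A s := by
  funext J
  simp only [pullF, Matrix.smul_apply, smul_eq_mul, Finset.prod_mul_distrib, Pi.smul_apply,
    Finset.mul_sum, mul_assoc]

omit [DecidableEq ι] in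
theorem pullF_zero (A : Fin k → Matrix ι ι ℂ) : pullF A 0 = 0 := by
  funext J
  simp [pullF]

omit [DecidableEq ι] in
theorem pullF_add (A : Fin k → Matrix ι ι ℂ) (s s' : (Fin k → ι) → ℂ) :
    pullF A (s + s') = pullF A s + pullF A s' := by
  funext J
  simp only [pullF, Pi.add_apply, mul_add, Finset.sum_add_distrib]

omit [DecidableEq ι] in
theorem pullF_fsum {I : Type} (S : Finset I) (A : Fin k → Matrix ι ι ℂ)
    (s : I → (Fin k → ι) → ℂ) : pullF A (∑ i ∈ S, s i) = ∑ i ∈ S, pullF A (s i) := by
  funext J
  simp only [pullF, Finset.sum_apply, Finset.mul_sum]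
  rw [Finset.sum_comm]

theorem act_eq (X : Matrix ι ι ℂ) (s : (Fin k → ι) → ℂ) :
    act X s = ∑ j, pullF (Function.update (fun _ => (1 : Matrix ι ι ℂ)) j X) s := by
  funext J
  simp only [act, Finset.sum_apply]
  refine Finset.sum_congr rfl fun j _ => ?_
  unfold pullF
  symm
  refine Finset.sum_bij_ne_zero (fun K _ _ => K j) (fun _ _ _ => Finset.mem_univ _) ?_ ?_ ?_
  · intro K _ hK K' _ hK' hj
    have h1 : ∀ K : Fin k → ι, (∏ i, Function.update (fun _ => (1 : Matrix ι ι ℂ)) j X i
        (K i) (J i)) * s K ≠ 0 → ∀ i, i ≠ j → K i = J i := by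
      intro K hK i hi
      by_contra hc
      apply hK
      rw [Finset.prod_eq_zero (Finset.mem_univ i), zero_mul]
      rw [Function.update_of_ne hi, Matrix.one_apply_ne hc]
    funext i
    by_cases hi : i = j
    · rw [hi]
      exact hj
    · rw [h1 K hK i hi, h1 K' hK' i hi]
  · intro l _ hl
    refine ⟨Function.update J j l, Finset.mem_univ _, ?_, by simp⟩
    rw [← Finset.mul_prod_erase _ _ (Finset.mem_univ j)]
    rw [Finset.prod_eq_one]
    · simpa using hl
    · intro i hi
      rw [Function.update_of_ne (Finset.ne_of_mem_erase hi),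
        Function.update_of_ne (Finset.ne_of_mem_erase hi), Matrix.one_apply_eq]
  · intro K _ hK
    have h1 : ∀ i, i ≠ j → K i = J i := by
      intro i hi
      by_contra hc
      apply hK
      rw [Finset.prod_eq_zero (Finset.mem_univ i), zero_mul]
      rw [Function.update_of_ne hi, Matrix.one_apply_ne hc]
    have h2 : K = Function.update J j (K j) := by
      funext i
      by_cases hi : i = j
      · rw [hi, Function.update_self]
      · rw [Function.update_of_ne hi, h1 i hi]
    rw [← Finset.mul_prod_erase _ _ (Finset.mem_univ j), Function.update_self,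
      Finset.prod_eq_one, mul_one]
    · rw [← h2]
    · intro i hi
      rw [Function.update_of_ne (Finset.ne_of_mem_erase hi), h1 i (Finset.ne_of_mem_erase hi),
        Matrix.one_apply_eq]

end pf

theorem ga_exp (i : Fin 5) : ga i = Complex.exp (Real.pi * Complex.I * ei i) := by
  fin_cases i
  · show (-1 : ℂ) = Complex.exp (Real.pi * Complex.I * 1)
    rw [mul_one, Complex.exp_pi_mul_I]
  · show (-1 : ℂ) = Complex.exp (Real.pi * Complex.I * (-1))
    rw [mul_neg_one, Complex.exp_neg, Complex.exp_pi_mul_I]
    norm_num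
  · show (1 : ℂ) = Complex.exp (Real.pi * Complex.I * 0)
    rw [mul_zero, Complex.exp_zero]
  · show Complex.I = Complex.exp (Real.pi * Complex.I * (1 / 2))
    rw [show (Real.pi : ℂ) * Complex.I * (1 / 2) = Real.pi / 2 * Complex.I by ring,
      Complex.exp_pi_div_two_mul_I]
  · show -Complex.I = Complex.exp (Real.pi * Complex.I * (-1 / 2))
    rw [show (Real.pi : ℂ) * Complex.I * (-1 / 2) = -Real.pi / 2 * Complex.I by ring,
      Complex.exp_neg_pi_div_two_mul_I]

theorem xst : S_xst := by
  intro κ _ _ X G G' P hP hX hG h1 h2 Y hY k t ht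
  have hc : act (Y.map (starRingEnd ℂ)) (cx t) = 0 := by
    have h3 := hY k t ht
    funext J
    have h4 := congrArg (starRingEnd ℂ) (congrFun h3 J)
    rw [Pi.zero_apply, map_zero] at h4
    rw [Pi.zero_apply, ← h4]
    simp only [act, map_sum, map_mul, Matrix.map_apply, cx]
    refine Finset.sum_congr rfl fun j _ => Finset.sum_congr rfl fun l _ => ?_
    congr 1
    exact (map_ratCast _ _).symm
  have hs : ∀ e : Fin k → Fin 5, (∑ j, ei (e j)) • pullF (fun j => P (e j)) (cx t) = 0 := by
    intro e
    have h3 := congrArg (pullF fun j => P (e j)) ht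
    rw [pullF_zero, act_eq, pullF_fsum] at h3
    rw [← h3, Finset.sum_smul]
    refine Finset.sum_congr rfl fun j _ => ?_
    rw [pullF_mul]
    have h4 : (fun i => Function.update (fun _ => (1 : Matrix κ κ ℂ)) j X i * P (e i)) =
        fun i => (Function.update (fun _ => (1 : ℂ)) j (ei (e j)) i) • P (e i) := by
      funext i
      by_cases hi : i = j
      · subst hi
        rw [Function.update_self, Function.update_self, hX]
      · rw [Function.update_of_ne hi, Function.update_of_ne hi, one_mul, one_smul]
    rw [h4, pullF_smul]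
    congr 1
    rw [Finset.prod_update_of_mem (Finset.mem_univ j)]
    simp
  have hg : pull G (cx t) = cx t := by
    have h3 : ∀ s : (Fin k → κ) → ℂ, ∑ e : Fin k → Fin 5, pullF (fun j => P (e j)) s = s := by
      intro s
      rw [← pullF_sum (fun _ i => P i), hP, ← pull_eq, pull_one]
    rw [← h3 (pull G (cx t)), pull_eq]
    conv_rhs => rw [← h3 (cx t)]
    refine Finset.sum_congr rfl fun e _ => ?_
    rw [pullF_mul]
    have h4 : (fun j => G * P (e j)) = fun j => ga (e j) • P (e j) := by
      funext j
      rw [hG]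
    rw [h4, pullF_smul]
    rcases smul_eq_zero.1 (hs e) with h5 | h5
    · have h6 : ∏ j, ga (e j) = 1 := by
        rw [Finset.prod_congr rfl fun j _ => ga_exp (e j), ← Complex.exp_sum, ← Finset.mul_sum,
          h5, mul_zero, Complex.exp_zero]
      rw [h6, one_smul]
    · rw [h5, smul_zero]
  rw [← hg, act_pull G _ (Y.map (starRingEnd ℂ)) (by
    rw [← mul_assoc, ← mul_assoc, h1, one_mul]), hc]
  exact pullF_zero _

end Pool.Agent.W612.PG
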